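import Pool.Agent.KS6_84.D29.Coef

/-!
# The uniform boundedness lemma (a Grothendieck factorisation in concrete form)
-/

open Filter Set Topology Metric
open scoped Uniformity

namespace Pool.Agent.KS6_84.D29

/-- `Hol V` is closed in `C(V, ℂ)`. -/
theorem isClosed_hol {V : Set ℂ} (hV : IsOpen V) : IsClosed ((Hol V : Submodule ℂ C(V, ℂ)) : Set C(V, ℂ)) := by
  have : LocallyCompactSpace V := hV.locallyCompactSpace
  rw [isClosed_iff_clusterPt]
  intro f hf
  change DifferentiableOn ℂ (ext0 f) V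
  rw [clusterPt_iff_nonempty] at hf
  have hne : NeBot (𝓝[(Hol V : Set C(V, ℂ))] f) := by
    rw [← mem_closure_iff_nhdsWithin_neBot, mem_closure_iff_clusterPt]
    rw [clusterPt_iff_nonempty]
    exact hf
  have h1 : Tendsto (fun g : C(V, ℂ) => g) (𝓝[(Hol V : Set C(V, ℂ))] f) (𝓝 f) :=
    tendsto_id.mono_left nhdsWithin_le_nhds
  have h2 : TendstoLocallyUniformlyOn (fun g : C(V, ℂ) => ext0 g) (ext0 f)
      (𝓝[(Hol V : Set C(V, ℂ))] f) V := by
    rw [tendstoLocallyUniformlyOn_iff_forall_isCompact hV]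
    intro K hKV hK
    have h3 := ContinuousMap.tendsto_iff_forall_isCompact_tendstoUniformlyOn.1 h1
      (Subtype.val ⁻¹' K) (by
        apply IsInducing.subtypeVal.isCompact_preimage' hK
        simpa using hKV)
    rw [Metric.tendstoUniformlyOn_iff] at h3 ⊢
    intro ε hε
    filter_upwards [h3 ε hε] with g hg z hz
    have := hg ⟨z, hKV hz⟩ hz
    rwa [ext0_apply _ z (hKV hz), ext0_apply _ z (hKV hz)]
  refine h2.differentiableOn ?_ hV
  filter_upwards [self_mem_nhdsWithin] with g hg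
  exact hg

theorem baire_hol {V : Set ℂ} (hV : IsOpen V) : BaireSpace (Hol V) := by
  have : LocallyCompactSpace V := hV.locallyCompactSpace
  have : TopologicalSpace.IsCompletelyPseudoMetrizableSpace (Hol V) :=
    (isClosed_hol hV).isCompletelyPseudoMetrizableSpace
  infer_instance

/-- Neighbourhoods in `Hol V`. -/
theorem mem_nhds_hol {V : Set ℂ} {f : Hol V} {s : Set (Hol V)} (hs : s ∈ 𝓝 f) :
    ∃ K : Set ℂ, IsCompact K ∧ K ⊆ V ∧ ∃ ε > 0, ∀ g : Hol V,
      (∀ z ∈ K, ‖ext0 (g : C(V, ℂ)) z‖ < ε) → f + g ∈ s := by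
  rw [nhds_subtype_eq_comap, mem_comap] at hs
  obtain ⟨t, ht, hts⟩ := hs
  have hb := (Metric.uniformity_basis_dist (α := ℂ)).compactConvergenceUniformity (α := V)
  have hb2 := nhds_basis_uniformity hb (x := (f : C(V, ℂ)))
  obtain ⟨⟨K, ε⟩, ⟨hK, hε⟩, hsub⟩ := hb2.mem_iff.1 ht
  refine ⟨Subtype.val '' K, hK.image continuous_subtype_val, by simp, ε, hε, ?_⟩
  intro g hg
  apply hts
  apply hsub
  intro x hx
  have := hg x (mem_image_of_mem _ hx)
  rw [ext0_apply _ x.1 x.2] at this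
  change dist (((f + g : Hol V) : C(V, ℂ)) x) ((f : C(V, ℂ)) x) < ε
  rw [dist_eq_norm]
  have e : ((f + g : Hol V) : C(V, ℂ)) x - (f : C(V, ℂ)) x = (g : C(V, ℂ)) x := by
    simp
  rw [e]
  exact this

theorem coef_bound_exists {E : Set ℂ} (φ : OSpace E) {Q : Set ℂ} (hQ : IsCompact Q)
    (hQE : Q ⊆ E) :
    ∃ n m : ℕ, ∀ p (hp : p ∈ Q) (k : ℕ),
      ‖coef p (hQE hp) k φ‖ * (1 / ((n : ℝ) + 1)) ^ k ≤ m := by
  obtain ⟨F, hF, rfl⟩ := exists_mkGerm φ
  have hW : IsOpen {z | AnalyticAt ℂ F z} := isOpen_analyticAt ℂ F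
  have hQW : Q ⊆ {z | AnalyticAt ℂ F z} := fun z hz => hF z (hQE hz)
  obtain ⟨δ, hδ, hsub⟩ := hQ.exists_cthickening_subset_open hW hQW
  have hcomp : IsCompact (cthickening δ Q) := hQ.cthickening
  have hcont : ContinuousOn F (cthickening δ Q) := fun z hz =>
    (hsub hz).continuousAt.continuousWithinAt
  obtain ⟨M0, hM0⟩ := hcomp.exists_bound_of_continuousOn hcont
  obtain ⟨n, hn⟩ := exists_nat_one_div_lt hδ
  obtain ⟨m, hm⟩ := exists_nat_ge M0
  refine ⟨n, m, ?_⟩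
  intro p hp k
  have hρ : (0 : ℝ) < 1 / ((n : ℝ) + 1) := Nat.one_div_pos_of_nat
  have hball : closedBall p (1 / ((n : ℝ) + 1)) ⊆ cthickening δ Q :=
    (closedBall_subset_closedBall hn.le).trans (closedBall_subset_cthickening hp δ)
  rw [coef_mkGerm]
  have h1 := cauchy_coef (f := F) (p := p) (C := M0) k hρ
    (fun z hz => (hsub (hball hz)).differentiableAt.differentiableWithinAt)
    (fun z hz => hM0 z (hball (sphere_subset_closedBall hz)))
  rw [le_div_iff₀ (by positivity)] at h1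
  exact h1.trans hm

/-- The uniform boundedness lemma. -/
theorem uniform_bound {V : Set ℂ} (hV : IsOpen V) {E : Set ℂ} (L : Hol V →ₗ[ℂ] OSpace E)
    (hL : Continuous L) {Q : Set ℂ} (hQ : IsCompact Q) (hQE : Q ⊆ E) :
    ∃ ρ > (0 : ℝ), ∃ C ≥ (0 : ℝ), ∃ K : Set ℂ, IsCompact K ∧ K ⊆ V ∧
      ∀ f : Hol V, ∀ M ≥ (0 : ℝ), (∀ z ∈ K, ‖ext0 (f : C(V, ℂ)) z‖ ≤ M) →
        ∀ p (hp : p ∈ Q) (k : ℕ), ‖coef p (hQE hp) k (L f)‖ * ρ ^ k ≤ C * M := by
  have := baire_hol hV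
  let A : ℕ × ℕ → Set (Hol V) := fun i =>
    {f | ∀ p (hp : p ∈ Q) (k : ℕ),
      ‖coef p (hQE hp) k (L f)‖ * (1 / ((i.1 : ℝ) + 1)) ^ k ≤ i.2}
  have hA : ∀ i, IsClosed (A i) := by
    intro i
    have : A i = ⋂ (p : ℂ) (hp : p ∈ Q) (k : ℕ),
        {f | ‖coef p (hQE hp) k (L f)‖ * (1 / ((i.1 : ℝ) + 1)) ^ k ≤ i.2} := by
      ext f
      simp only [A, mem_iInter]
      rfl
    rw [this]
    refine isClosed_iInter fun p => isClosed_iInter fun hp => isClosed_iInter fun k => ?_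
    apply isClosed_le _ continuous_const
    exact (((continuous_coef p (hQE hp) k).comp hL).norm).mul continuous_const
  have hU : ⋃ i, A i = univ := by
    rw [eq_univ_iff_forall]
    intro f
    obtain ⟨n, m, h⟩ := coef_bound_exists (L f) hQ hQE
    exact mem_iUnion.2 ⟨(n, m), h⟩
  obtain ⟨⟨n, m⟩, f₀, hf₀⟩ := nonempty_interior_of_iUnion_of_closed hA hU
  have hf₀' : f₀ ∈ A (n, m) := interior_subset hf₀
  obtain ⟨K, hK, hKV, ε, hε, hsub⟩ := mem_nhds_hol (isOpen_interior.mem_nhds hf₀)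
  have hρ : (0 : ℝ) < 1 / ((n : ℝ) + 1) := Nat.one_div_pos_of_nat
  have key : ∀ g : Hol V, (∀ z ∈ K, ‖ext0 (g : C(V, ℂ)) z‖ < ε) →
      ∀ p (hp : p ∈ Q) (k : ℕ), ‖coef p (hQE hp) k (L g)‖ * (1 / ((n : ℝ) + 1)) ^ k ≤ 2 * m := by
    intro g hg p hp k
    have h1 : f₀ + g ∈ A (n, m) := interior_subset (hsub g hg)
    have h2 := h1 p hp k
    have h3 := hf₀' p hp k
    have h4 : coef p (hQE hp) k (L g) =
        coef p (hQE hp) k (L (f₀ + g)) - coef p (hQE hp) k (L f₀) := by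
      rw [map_add, map_add]
      ring
    rw [h4]
    calc ‖coef p (hQE hp) k (L (f₀ + g)) - coef p (hQE hp) k (L f₀)‖ * (1 / ((n : ℝ) + 1)) ^ k
        ≤ (‖coef p (hQE hp) k (L (f₀ + g))‖ + ‖coef p (hQE hp) k (L f₀)‖) *
          (1 / ((n : ℝ) + 1)) ^ k := by
          gcongr
          exact norm_sub_le _ _
      _ ≤ m + m := by
          rw [add_mul]
          exact add_le_add h2 h3
      _ = 2 * m := by ring
  have key2 : ∀ f : Hol V, ∀ M > (0 : ℝ), (∀ z ∈ K, ‖ext0 (f : C(V, ℂ)) z‖ ≤ M) →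
      ∀ p (hp : p ∈ Q) (k : ℕ),
        ‖coef p (hQE hp) k (L f)‖ * (1 / ((n : ℝ) + 1)) ^ k ≤ (4 * m / ε) * M := by
    intro f M hM hf p hp k
    have hc : (0 : ℝ) < ε / (2 * M) := by positivity
    have h1 := key (((ε / (2 * M) : ℝ) : ℂ) • f) (by
      intro z hz
      have e : ext0 (((((ε / (2 * M) : ℝ) : ℂ) • f : Hol V)) : C(V, ℂ)) z =
          ((ε / (2 * M) : ℝ) : ℂ) * ext0 (f : C(V, ℂ)) z := by
        rw [Submodule.coe_smul, ext0_smul]
        rfl
      rw [e, norm_mul, Complex.norm_real, Real.norm_of_nonneg hc.le]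
      calc ε / (2 * M) * ‖ext0 (f : C(V, ℂ)) z‖ ≤ ε / (2 * M) * M := by
            gcongr
            exact hf z hz
        _ = ε / 2 := by field_simp
        _ < ε := by linarith) p hp k
    rw [map_smul, map_smul, norm_smul, Complex.norm_real, Real.norm_of_nonneg hc.le] at h1
    have h2 : ε / (2 * M) * (‖coef p (hQE hp) k (L f)‖ * (1 / ((n : ℝ) + 1)) ^ k) ≤ 2 * m := by
      rw [← mul_assoc]
      exact h1
    calc ‖coef p (hQE hp) k (L f)‖ * (1 / ((n : ℝ) + 1)) ^ k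
        = (2 * M / ε) * (ε / (2 * M) *
          (‖coef p (hQE hp) k (L f)‖ * (1 / ((n : ℝ) + 1)) ^ k)) := by field_simp
      _ ≤ (2 * M / ε) * (2 * m) := by
          apply mul_le_mul_of_nonneg_left h2
          positivity
      _ = (4 * m / ε) * M := by ring
  refine ⟨1 / ((n : ℝ) + 1), hρ, 4 * m / ε, by positivity, K, hK, hKV, ?_⟩
  intro f M hM hf p hp k
  rcases hM.lt_or_eq with hM | rfl
  · exact key2 f M hM hf p hp k
  · rw [mul_zero]
    apply le_of_forall_pos_le_add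
    intro δ hδ
    by_cases hC : (4 * m / ε : ℝ) = 0
    · have h3 := key2 f 1 one_pos (fun z hz => (hf z hz).trans zero_le_one) p hp k
      rw [hC] at h3
      linarith
    · have hC' : (0 : ℝ) < 4 * m / ε := lt_of_le_of_ne (by positivity) (Ne.symm hC)
      have h3 := key2 f (δ / (4 * m / ε)) (by positivity)
        (fun z hz => (hf z hz).trans (by positivity)) p hp k
      rw [mul_div_cancel₀ _ hC] at h3
      linarith

end Pool.Agent.KS6_84.D29
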