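import Pool.Agent.KS6_84.D29.Defs

/-!
# Taylor coefficients as continuous functionals on the germ spaces
-/

open Filter Set Topology Metric

namespace Pool.Agent.KS6_84.D29

/-- Every element of `O(E)` is the germ of a function analytic near `E`. -/
theorem exists_rep {E : Set ℂ} (φ : OSpace E) :
    ∃ f : ℂ → ℂ, AnalyticOnNhd ℂ f E ∧ (φ : OGerm E).1 = (f : Germ (𝓝ˢ E) ℂ) := φ.2

/-- The germ on `E` of a function analytic near `E`. -/
noncomputable def mkGerm {E : Set ℂ} (f : ℂ → ℂ) (hf : AnalyticOnNhd ℂ f E) : OSpace E :=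
  ⟨(f : Germ (𝓝ˢ E) ℂ), f, hf, rfl⟩

theorem exists_mkGerm {E : Set ℂ} (φ : OSpace E) :
    ∃ (f : ℂ → ℂ) (hf : AnalyticOnNhd ℂ f E), φ = mkGerm f hf := by
  obtain ⟨f, hf, h⟩ := exists_rep φ
  exact ⟨f, hf, Subtype.ext h⟩

theorem mkGerm_eq {E : Set ℂ} {f g : ℂ → ℂ} (hf : AnalyticOnNhd ℂ f E)
    (hg : AnalyticOnNhd ℂ g E) (h : ∀ z ∈ E, f =ᶠ[𝓝 z] g) : mkGerm f hf = mkGerm g hg := by
  apply Subtype.ext
  apply Germ.coe_eq.2
  exact eventually_nhdsSet_iff_forall.2 h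

theorem eq_of_mkGerm_eq {E : Set ℂ} {f g : ℂ → ℂ} (hf : AnalyticOnNhd ℂ f E)
    (hg : AnalyticOnNhd ℂ g E) (h : mkGerm f hf = mkGerm g hg) :
    ∀ z ∈ E, f =ᶠ[𝓝 z] g := by
  have h1 : ((f : Germ (𝓝ˢ E) ℂ)) = (g : Germ (𝓝ˢ E) ℂ) := congrArg Subtype.val h
  have h2 := Germ.coe_eq.1 h1
  exact eventually_nhdsSet_iff_forall.1 h2

/-- The `k`-th Taylor coefficient at `p ∈ E`, as a linear functional on `O(E)`. -/
noncomputable def coef {E : Set ℂ} (p : ℂ) (hp : p ∈ E) (k : ℕ) : OSpace E →ₗ[ℂ] ℂ where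
  toFun φ := (k.factorial : ℂ)⁻¹ * iteratedDeriv k (exists_mkGerm φ).choose p
  map_add' := by
    intro φ ψ
    obtain ⟨h1, e1⟩ := (exists_mkGerm φ).choose_spec
    obtain ⟨h2, e2⟩ := (exists_mkGerm ψ).choose_spec
    obtain ⟨h3, e3⟩ := (exists_mkGerm (φ + ψ)).choose_spec
    set f := (exists_mkGerm φ).choose
    set g := (exists_mkGerm ψ).choose
    set h := (exists_mkGerm (φ + ψ)).choose
    have e4 : mkGerm h h3 = mkGerm (f + g) (h1.add h2) := by
      rw [← e3, e1, e2]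
      rfl
    have e5 := eq_of_mkGerm_eq _ _ e4 p hp
    rw [e5.iteratedDeriv_eq k]
    rw [iteratedDeriv_add (h1 p hp).contDiffAt (h2 p hp).contDiffAt]
    ring
  map_smul' := by
    intro c φ
    obtain ⟨h1, e1⟩ := (exists_mkGerm φ).choose_spec
    obtain ⟨h3, e3⟩ := (exists_mkGerm (c • φ)).choose_spec
    set f := (exists_mkGerm φ).choose
    set h := (exists_mkGerm (c • φ)).choose
    have e4 : mkGerm h h3 = mkGerm (c • f) (h1.const_smul) := by
      rw [← e3, e1]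
      rfl
    have e5 := eq_of_mkGerm_eq _ _ e4 p hp
    rw [e5.iteratedDeriv_eq k]
    rw [iteratedDeriv_const_smul_field]
    simp only [smul_eq_mul, RingHom.id_apply]
    ring

theorem coef_mkGerm {E : Set ℂ} (p : ℂ) (hp : p ∈ E) (k : ℕ) (f : ℂ → ℂ)
    (hf : AnalyticOnNhd ℂ f E) :
    coef p hp k (mkGerm f hf) = (k.factorial : ℂ)⁻¹ * iteratedDeriv k f p := by
  obtain ⟨h1, e1⟩ := (exists_mkGerm (mkGerm f hf)).choose_spec
  change (k.factorial : ℂ)⁻¹ * iteratedDeriv k (exists_mkGerm (mkGerm f hf)).choose p = _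
  have e5 := eq_of_mkGerm_eq _ _ e1 p hp
  rw [e5.iteratedDeriv_eq k]

/-- Cauchy's estimate for the Taylor coefficients. -/
theorem cauchy_coef {f : ℂ → ℂ} {p : ℂ} {R C : ℝ} (k : ℕ) (hR : 0 < R)
    (hf : DifferentiableOn ℂ f (closedBall p R)) (hC : ∀ z ∈ sphere p R, ‖f z‖ ≤ C) :
    ‖(k.factorial : ℂ)⁻¹ * iteratedDeriv k f p‖ ≤ C / R ^ k := by
  have h1 : DiffContOnCl ℂ f (ball p R) := by
    apply DifferentiableOn.diffContOnCl
    rwa [closure_ball p hR.ne']
  have h2 := Complex.norm_iteratedDeriv_le_of_forall_mem_sphere_norm_le k hR h1 hC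
  rw [norm_mul, norm_inv, Complex.norm_natCast]
  have h3 : (0 : ℝ) < k.factorial := by positivity
  rw [inv_mul_le_iff₀ h3]
  calc _ ≤ _ := h2
    _ = _ := by ring

/-- Continuity of the Taylor coefficients on `Hol V`. -/
theorem continuous_coef_hol {V : Set ℂ} (hV : IsOpen V) {p : ℂ} (hp : p ∈ V) (k : ℕ) :
    Continuous fun f : Hol V => (k.factorial : ℂ)⁻¹ * iteratedDeriv k (ext0 (f : C(V, ℂ))) p := by
  obtain ⟨R, hR, hRV⟩ := Metric.nhds_basis_closedBall.mem_iff.1 (hV.mem_nhds hp)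
  rw [continuous_iff_continuousAt]
  intro f
  rw [ContinuousAt, Metric.tendsto_nhds]
  intro ε hε
  -- compact set in V
  let K : Set V := Subtype.val ⁻¹' (closedBall p R)
  have hK : IsCompact K := by
    apply IsInducing.subtypeVal.isCompact_preimage' (isCompact_closedBall p R)
    simpa using hRV
  have h1 : Tendsto (fun g : Hol V => (g : C(V, ℂ))) (𝓝 f) (𝓝 (f : C(V, ℂ))) :=
    (continuous_subtype_val).continuousAt
  have h2 := ContinuousMap.tendsto_iff_forall_isCompact_tendstoUniformlyOn.1 h1 K hK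
  rw [Metric.tendstoUniformlyOn_iff] at h2
  have h3 := h2 (ε / 2 * R ^ k) (by positivity)
  filter_upwards [h3] with g hg
  have h4 : (k.factorial : ℂ)⁻¹ * iteratedDeriv k (ext0 (g : C(V, ℂ))) p -
      (k.factorial : ℂ)⁻¹ * iteratedDeriv k (ext0 (f : C(V, ℂ))) p =
      (k.factorial : ℂ)⁻¹ * iteratedDeriv k (ext0 (g : C(V, ℂ)) - ext0 (f : C(V, ℂ))) p := by
    have a1 := (g.2.analyticOnNhd hV p hp).contDiffAt (n := k)
    have a2 := (f.2.analyticOnNhd hV p hp).contDiffAt (n := k)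
    rw [iteratedDeriv_sub a1 a2]
    ring
  rw [dist_eq_norm, h4]
  have h5 : ‖(k.factorial : ℂ)⁻¹ *
      iteratedDeriv k (ext0 (g : C(V, ℂ)) - ext0 (f : C(V, ℂ))) p‖ ≤ (ε / 2 * R ^ k) / R ^ k := by
    apply cauchy_coef k hR
    · exact (g.2.mono hRV).sub (f.2.mono hRV)
    · intro z hz
      have hz' : z ∈ V := hRV (sphere_subset_closedBall hz)
      have := hg ⟨z, hz'⟩ (sphere_subset_closedBall hz)
      rw [dist_comm, dist_eq_norm] at this
      simp only [Pi.sub_apply]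
      rw [ext0_apply _ z hz', ext0_apply _ z hz']
      exact this.le
  have h6 : (ε / 2 * R ^ k) / R ^ k = ε / 2 := by
    field_simp
  rw [h6] at h5
  linarith

/-- The Taylor coefficients are continuous on `O(E)`. -/
theorem continuous_coef {E : Set ℂ} (p : ℂ) (hp : p ∈ E) (k : ℕ) :
    Continuous (coef p hp k : OSpace E → ℂ) := by
  apply continuous_of_forall
  intro V hV hE
  have h1 : ∀ f : Hol V, coef p hp k (toGerm E V hV hE f) =
      (k.factorial : ℂ)⁻¹ * iteratedDeriv k (ext0 (f : C(V, ℂ))) p := by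
    intro f
    exact coef_mkGerm p hp k _ ((f.2.analyticOnNhd hV).mono hE)
  simp_rw [h1]
  exact continuous_coef_hol hV (hE hp) k

end Pool.Agent.KS6_84.D29
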