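import Mathlib

/-!
# Spaces of germs of analytic functions

`Hol V` is the space `O(V)` for an open set `V ⊆ ℂ`, with the topology of uniform convergence on
compact subsets of `V`; `OSpace E` is the space `O(E)` of germs on `E` of functions analytic near
`E`, with the topology of the locally convex inductive limit of the spaces `O(V)`, `V ⊇ E` open.
-/

open Filter Set Topology

namespace Pool.Agent.KS6_84.D29

/-- Extension by zero of a continuous function on `V` to all of `ℂ`. -/
noncomputable def ext0 {V : Set ℂ} (f : C(V, ℂ)) : ℂ → ℂ :=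
  Function.extend Subtype.val f 0

theorem ext0_apply {V : Set ℂ} (f : C(V, ℂ)) (z : ℂ) (hz : z ∈ V) : ext0 f z = f ⟨z, hz⟩ := by
  have := Function.Injective.extend_apply (f := (Subtype.val : V → ℂ)) Subtype.val_injective f 0 ⟨z, hz⟩
  exact this

theorem ext0_add {V : Set ℂ} (f g : C(V, ℂ)) : ext0 (f + g) = ext0 f + ext0 g := by
  funext z
  by_cases hz : z ∈ V
  · simp [ext0_apply _ z hz]
  · have h : ¬ ∃ a : V, (a : ℂ) = z := by simpa using hz
    simp [ext0, Function.extend_apply' _ _ _ h]

theorem ext0_smul {V : Set ℂ} (c : ℂ) (f : C(V, ℂ)) : ext0 (c • f) = c • ext0 f := by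
  funext z
  by_cases hz : z ∈ V
  · simp [ext0_apply _ z hz]
  · have h : ¬ ∃ a : V, (a : ℂ) = z := by simpa using hz
    simp [ext0, Function.extend_apply' _ _ _ h]

/-- `O(V)` as a subspace of the space `C(V, ℂ)` of continuous functions on `V`, which carries the
compact-open topology (uniform convergence on compact subsets of `V`). -/
noncomputable def Hol (V : Set ℂ) : Submodule ℂ C(V, ℂ) where
  carrier := {f | DifferentiableOn ℂ (ext0 f) V}
  add_mem' := by
    intro f g hf hg
    simp only [mem_ofPred_eq] at *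
    rw [ext0_add]
    exact hf.add hg
  zero_mem' := by
    simp only [mem_ofPred_eq]
    have : ext0 (0 : C(V, ℂ)) = 0 := by
      funext z
      by_cases hz : z ∈ V
      · simp [ext0_apply _ z hz]
      · have h : ¬ ∃ a : V, (a : ℂ) = z := by simpa using hz
        simp [ext0, Function.extend_apply' _ _ _ h]
    rw [this]
    exact differentiableOn_const 0
  smul_mem' := by
    intro c f hf
    simp only [mem_ofPred_eq] at *
    rw [ext0_smul]
    exact hf.const_smul c

/-- The germs on `E` of functions analytic near `E`. -/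
def OGerm (E : Set ℂ) : Submodule ℂ (Germ (𝓝ˢ E) ℂ) where
  carrier := {φ | ∃ f : ℂ → ℂ, AnalyticOnNhd ℂ f E ∧ φ = (f : Germ (𝓝ˢ E) ℂ)}
  add_mem' := by
    rintro _ _ ⟨f, hf, rfl⟩ ⟨g, hg, rfl⟩
    exact ⟨f + g, hf.add hg, rfl⟩
  zero_mem' := ⟨0, analyticOnNhd_const, rfl⟩
  smul_mem' := by
    rintro c _ ⟨f, hf, rfl⟩
    exact ⟨c • f, hf.const_smul, rfl⟩

/-- The space `O(E)`. -/
def OSpace (E : Set ℂ) : Type := ↥(OGerm E)

noncomputable instance (E : Set ℂ) : AddCommGroup (OSpace E) :=
  inferInstanceAs (AddCommGroup ↥(OGerm E))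

noncomputable instance (E : Set ℂ) : Module ℂ (OSpace E) :=
  inferInstanceAs (Module ℂ ↥(OGerm E))

/-- The natural map `O(V) → O(E)` for an open `V ⊇ E`. -/
noncomputable def toGerm (E : Set ℂ) (V : Set ℂ) (hV : IsOpen V) (hE : E ⊆ V) :
    Hol V →ₗ[ℂ] OSpace E where
  toFun f := ⟨((ext0 (f : C(V, ℂ)) : ℂ → ℂ) : Germ (𝓝ˢ E) ℂ), ext0 (f : C(V, ℂ)),
    (f.2.analyticOnNhd hV).mono hE, rfl⟩
  map_add' f g := by
    apply Subtype.ext
    change ((ext0 ((f : C(V, ℂ)) + (g : C(V, ℂ))) : ℂ → ℂ) : Germ (𝓝ˢ E) ℂ) = _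
    rw [ext0_add]
    rfl
  map_smul' c f := by
    apply Subtype.ext
    change ((ext0 (c • (f : C(V, ℂ))) : ℂ → ℂ) : Germ (𝓝ˢ E) ℂ) = _
    rw [ext0_smul]
    rfl

/-- A topology on `O(E)` is *admissible* if it makes `O(E)` a locally convex topological vector
space and makes all the natural maps `O(V) → O(E)` (`V ⊇ E` open) continuous. -/
def Admissible (E : Set ℂ) (t : TopologicalSpace (OSpace E)) : Prop :=
  @IsTopologicalAddGroup (OSpace E) t _ ∧ @ContinuousSMul ℂ (OSpace E) _ _ t ∧
    @LocallyConvexSpace ℝ (OSpace E) _ _ _ _ t ∧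
    ∀ (V : Set ℂ) (hV : IsOpen V) (hE : E ⊆ V),
      @Continuous (Hol V) (OSpace E) _ t (toGerm E V hV hE)

/-- The topology of the locally convex inductive limit: the finest admissible topology. -/
noncomputable instance (E : Set ℂ) : TopologicalSpace (OSpace E) :=
  sInf {t | Admissible E t}

/-- The inductive limit topology is admissible, and finer than every other admissible topology. -/
theorem admissible_topology (E : Set ℂ) :
    Admissible E inferInstance ∧
      ∀ t, Admissible E t → (inferInstance : TopologicalSpace (OSpace E)) ≤ t := by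
  refine ⟨⟨?_, ?_, ?_, ?_⟩, ?_⟩
  · exact topologicalAddGroup_sInf fun t ht => ht.1
  · exact continuousSMul_sInf fun t ht => ht.2.1
  · exact LocallyConvexSpace.sInf fun t ht => ht.2.2.1
  · intro V hV hE
    exact continuous_sInf_rng.2 fun t ht => ht.2.2.2 V hV hE
  · intro t ht
    exact sInf_le ht

instance (E : Set ℂ) : IsTopologicalAddGroup (OSpace E) := (admissible_topology E).1.1
instance (E : Set ℂ) : ContinuousSMul ℂ (OSpace E) := (admissible_topology E).1.2.1

/-- Universal property: a linear functional on `O(E)` all of whose pullbacks to the `O(V)` are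
continuous is continuous. -/
theorem continuous_of_forall (E : Set ℂ) (l : OSpace E →ₗ[ℂ] ℂ)
    (h : ∀ (V : Set ℂ) (hV : IsOpen V) (hE : E ⊆ V), Continuous fun f => l (toGerm E V hV hE f)) :
    Continuous l := by
  rw [continuous_iff_le_induced]
  refine (admissible_topology E).2 _ ⟨?_, ?_, ?_, ?_⟩
  · exact topologicalAddGroup_induced _
  · exact continuousSMul_induced _
  · exact LocallyConvexSpace.induced (l.restrictScalars ℝ)
  · intro V hV hE
    exact continuous_induced_rng.2 (h V hV hE)

end Pool.Agent.KS6_84.D29
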