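import Mathlib

/-!
# Estimates for the test functions `((1+w)/2)^(M d) P((w - y₀)/ρ₀)`
-/

open Filter Set Topology Metric Polynomial

namespace Pool.Agent.KS6_84.D29

theorem iterate_deriv_poly (P : ℂ[X]) (k : ℕ) :
    deriv^[k] (fun x => P.eval x) = fun x => (derivative^[k] P).eval x := by
  induction k with
  | zero => rfl
  | succ k ih =>
    rw [Function.iterate_succ_apply', Function.iterate_succ_apply', ih]
    funext x
    exact Polynomial.deriv _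

theorem coeff_bound (P : ℂ[X]) (C : ℝ) (h : ∀ v : ℂ, ‖v‖ ≤ 1 → ‖P.eval v‖ ≤ C) (j : ℕ) :
    ‖P.coeff j‖ ≤ C := by
  have h1 : ‖iteratedDeriv j (fun x => P.eval x) 0‖ ≤ j.factorial * C / 1 ^ j := by
    apply Complex.norm_iteratedDeriv_le_of_forall_mem_sphere_norm_le j one_pos
    · exact P.differentiable.diffContOnCl
    · intro z hz
      apply h
      simpa using (mem_sphere_zero_iff_norm.1 hz).le
  rw [iteratedDeriv_eq_iterate, iterate_deriv_poly, one_pow, div_one] at h1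
  have h2 : (derivative^[j] P).eval 0 = j.factorial * P.coeff j := by
    have := Polynomial.coeff_iterate_derivative (p := P) (k := j) 0
    rw [Polynomial.coeff_zero_eq_eval_zero] at this
    rw [this]
    simp [Nat.descFactorial_self]
  simp only [] at h1
  rw [h2, norm_mul, Complex.norm_natCast] at h1
  have h3 : (0 : ℝ) < j.factorial := by positivity
  exact le_of_mul_le_mul_left h1 h3

theorem eval_bound (P : ℂ[X]) (d : ℕ) (hd : P.natDegree ≤ d) (C : ℝ) (hC : 0 ≤ C)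
    (h : ∀ j, ‖P.coeff j‖ ≤ C) (v : ℂ) :
    ‖P.eval v‖ ≤ (d + 1) * C * (max 1 ‖v‖) ^ d := by
  rw [Polynomial.eval_eq_sum_range' (Nat.lt_succ_of_le hd)]
  calc ‖∑ i ∈ Finset.range (d + 1), P.coeff i * v ^ i‖
      ≤ ∑ i ∈ Finset.range (d + 1), C * (max 1 ‖v‖) ^ d := by
        apply norm_sum_le_of_le
        intro i hi
        rw [norm_mul, norm_pow]
        have hi' : i ≤ d := Nat.lt_succ_iff.1 (Finset.mem_range.1 hi)
        apply mul_le_mul (h i) _ (by positivity) hC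
        calc ‖v‖ ^ i ≤ (max 1 ‖v‖) ^ i := by
              gcongr
              exact le_max_right _ _
          _ ≤ (max 1 ‖v‖) ^ d := pow_le_pow_right₀ (le_max_left _ _) hi'
    _ = (d + 1) * C * (max 1 ‖v‖) ^ d := by
        rw [Finset.sum_const, Finset.card_range]
        simp
        ring

/-- The test functions (in the rotated variable `w`). -/
noncomputable def tf (M d : ℕ) (y₀ ρ₀ : ℝ) (P : ℂ[X]) (w : ℂ) : ℂ :=
  ((1 + w) / 2) ^ (M * d) * P.eval ((w - y₀) / ρ₀)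

theorem tf_coeff {M d : ℕ} {y₀ ρ₀ l₁ : ℝ} (hρ₀ : 0 < ρ₀) (hl₁ : 0 < l₁)
    (hq : ∀ w : ℂ, ‖w - y₀‖ ≤ ρ₀ → l₁ ≤ ‖(1 + w) / 2‖) {P : ℂ[X]} {S : ℝ}
    (h : ∀ w : ℂ, ‖w - y₀‖ ≤ ρ₀ → ‖tf M d y₀ ρ₀ P w‖ ≤ S) (j : ℕ) :
    ‖P.coeff j‖ ≤ S / l₁ ^ (M * d) := by
  apply coeff_bound
  intro v hv
  have hρ' : (ρ₀ : ℂ) ≠ 0 := by exact_mod_cast hρ₀.ne'
  have h1 : ‖((y₀ : ℂ) + ρ₀ * v) - y₀‖ ≤ ρ₀ := by
    rw [add_sub_cancel_left, norm_mul, Complex.norm_real, Real.norm_of_nonneg hρ₀.le]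
    calc ρ₀ * ‖v‖ ≤ ρ₀ * 1 := by gcongr
      _ = ρ₀ := mul_one _
  have h2 := h _ h1
  have h3 := hq _ h1
  rw [tf, norm_mul, norm_pow] at h2
  have h4 : ((y₀ : ℂ) + ρ₀ * v - y₀) / ρ₀ = v := by
    rw [add_sub_cancel_left, mul_div_cancel_left₀ _ hρ']
  rw [h4] at h2
  rw [le_div_iff₀ (by positivity), mul_comm]
  calc l₁ ^ (M * d) * ‖P.eval v‖ ≤ ‖(1 + ((y₀ : ℂ) + ρ₀ * v)) / 2‖ ^ (M * d) * ‖P.eval v‖ := by
        gcongr
    _ ≤ S := h2

theorem tf_bound {M d : ℕ} {y₀ ρ₀ l₁ : ℝ} (hρ₀ : 0 < ρ₀) (hl₁ : 0 < l₁)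
    (hq : ∀ w : ℂ, ‖w - y₀‖ ≤ ρ₀ → l₁ ≤ ‖(1 + w) / 2‖) {P : ℂ[X]} (hP : P.natDegree ≤ d)
    {S : ℝ} (hS : 0 ≤ S)
    (h : ∀ w : ℂ, ‖w - y₀‖ ≤ ρ₀ → ‖tf M d y₀ ρ₀ P w‖ ≤ S) (w : ℂ) :
    ‖tf M d y₀ ρ₀ P w‖ ≤
      (d + 1) * S * ((‖(1 + w) / 2‖ / l₁) ^ M * max 1 ‖(w - y₀) / ρ₀‖) ^ d := by
  have h1 := tf_coeff hρ₀ hl₁ hq h
  have h2 := eval_bound P d hP (S / l₁ ^ (M * d)) (by positivity) h1 ((w - y₀) / ρ₀)
  rw [tf, norm_mul, norm_pow]
  calc ‖(1 + w) / 2‖ ^ (M * d) * ‖P.eval ((w - y₀) / ρ₀)‖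
      ≤ ‖(1 + w) / 2‖ ^ (M * d) *
        ((d + 1) * (S / l₁ ^ (M * d)) * (max 1 ‖(w - y₀) / ρ₀‖) ^ d) := by gcongr
    _ = (d + 1) * S * ((‖(1 + w) / 2‖ / l₁) ^ M * max 1 ‖(w - y₀) / ρ₀‖) ^ d := by
        rw [mul_pow, div_pow, div_pow, ← pow_mul, ← pow_mul]
        field_simp

theorem differentiable_tf (M d : ℕ) (y₀ ρ₀ : ℝ) (P : ℂ[X]) :
    Differentiable ℂ (tf M d y₀ ρ₀ P) := by
  unfold tf
  apply Differentiable.mul
  · fun_prop
  · exact P.differentiable.comp (by fun_prop)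

/-- The elementary constants attached to `κ₀ ∈ [1/2, 1)`. -/
theorem norm_q_le {κ s : ℝ} {w : ℂ} (hw : ‖w‖ ≤ 1 + s) (hre : w.re ≤ κ)
    (hs0 : 0 ≤ s) (hs : (1 + s) ^ 2 ≤ 2 - κ) : ‖(1 + w) / 2‖ ≤ (7 + κ) / 8 := by
  have h1 : ‖(1 + w) / 2‖ ^ 2 ≤ ((7 + κ) / 8) ^ 2 := by
    rw [norm_div, div_pow]
    have h2 : ‖(1 + w)‖ ^ 2 = 1 + 2 * w.re + ‖w‖ ^ 2 := by
      rw [Complex.sq_norm, Complex.sq_norm, Complex.normSq_apply, Complex.normSq_apply]
      simp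
      ring
    rw [h2]
    have h3 : ‖w‖ ^ 2 ≤ (1 + s) ^ 2 := by gcongr
    have h4 : ‖(2 : ℂ)‖ = 2 := by simp
    rw [h4]
    nlinarith [sq_nonneg (1 - κ)]
  have h5 : 0 ≤ (7 + κ) / 8 := by
    by_contra hneg
    push Not at hneg
    have : κ < -7 := by linarith
    have h6 : -‖w‖ ≤ w.re := by
      have := Complex.abs_re_le_norm w
      rw [abs_le] at this
      exact this.1
    nlinarith
  exact (pow_le_pow_iff_left₀ (norm_nonneg _) h5 two_ne_zero).1 h1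

/-- The maximum principle step. -/
theorem max_step {F : ℂ → ℂ} (hF : Differentiable ℂ F) {κ s' S : ℝ} (hκ : 0 < κ) (hs' : 0 < s')
    (d : ℕ)
    (hout : ∀ w : ℂ, ‖w‖ = 1 + s' → κ ≤ w.re → ‖F w‖ ≤ S)
    (hin : ∀ w : ℂ, ‖w‖ ≤ 1 + s' → w.re ≤ κ → ‖F w‖ * ((1 + s') / κ) ^ d ≤ S)
    {w : ℂ} (hw : ‖w‖ ≤ 1 + s') (hre : κ ≤ w.re) :
    ‖F w‖ ≤ (‖w‖ / (1 + s')) ^ d * S := by
  rcases hw.lt_or_eq with hlt | heq
  swap
  · rw [heq, div_self (by positivity), one_pow, one_mul]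
    exact hout w heq hre
  rcases hre.lt_or_eq with hre' | hre'
  swap
  · have h1 := hin w hw hre'.symm.le
    have hw0 : κ ≤ ‖w‖ := by
      rw [hre']
      exact Complex.re_le_norm w
    have hS : 0 ≤ S := le_trans (by positivity) h1
    have h2 : ‖F w‖ ≤ (κ / (1 + s')) ^ d * S := by
      have h3 : (κ / (1 + s')) ^ d * (‖F w‖ * ((1 + s') / κ) ^ d) = ‖F w‖ := by
        rw [mul_comm (‖F w‖), ← mul_assoc, ← mul_pow]
        have : κ / (1 + s') * ((1 + s') / κ) = 1 := by field_simp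
        rw [this, one_pow, one_mul]
      rw [← h3]
      apply mul_le_mul_of_nonneg_left h1
      positivity
    calc ‖F w‖ ≤ (κ / (1 + s')) ^ d * S := h2
      _ ≤ (‖w‖ / (1 + s')) ^ d * S := by gcongr
  -- the open region
  let U : Set ℂ := {z | ‖z‖ < 1 + s' ∧ κ < z.re}
  have hUo : IsOpen U :=
    (isOpen_lt continuous_norm continuous_const).inter
      (isOpen_lt continuous_const Complex.continuous_re)
  have hUb : Bornology.IsBounded U := by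
    apply (Metric.isBounded_ball (x := (0 : ℂ)) (r := 1 + s')).subset
    intro z hz
    simpa using hz.1
  have hcl : closure U ⊆ {z | ‖z‖ ≤ 1 + s' ∧ κ ≤ z.re} := by
    apply closure_minimal
    · intro z hz
      exact ⟨hz.1.le, hz.2.le⟩
    · exact (isClosed_le continuous_norm continuous_const).inter
        (isClosed_le continuous_const Complex.continuous_re)
  let h : ℂ → ℂ := fun z => F z * (((1 + s' : ℝ) : ℂ) / z) ^ d
  have hne : ∀ z ∈ closure U, z ≠ 0 := by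
    rintro z hz rfl
    have := (hcl hz).2
    simp at this
    linarith
  have hd : DiffContOnCl ℂ h U := by
    apply DifferentiableOn.diffContOnCl
    intro z hz
    apply DifferentiableAt.differentiableWithinAt
    have hz0 := hne z hz
    apply (hF z).mul
    apply DifferentiableAt.pow
    exact (differentiableAt_const _).div differentiableAt_id hz0
  have hnorm : ∀ z, ‖h z‖ = ‖F z‖ * ((1 + s') / ‖z‖) ^ d := by
    intro z
    simp only [h]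
    rw [norm_mul, norm_pow, norm_div, Complex.norm_real, Real.norm_of_nonneg (by positivity)]
  have hfr : ∀ z ∈ frontier U, ‖h z‖ ≤ S := by
    intro z hz
    have hzc := hcl (frontier_subset_closure hz)
    have hzU : z ∉ U := by
      intro hzU
      rw [hUo.frontier_eq] at hz
      exact hz.2 hzU
    have hκz : κ ≤ ‖z‖ := hzc.2.trans (Complex.re_le_norm z)
    rw [hnorm]
    by_cases h1 : ‖z‖ = 1 + s'
    · rw [h1, div_self (by positivity), one_pow, mul_one]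
      exact hout z h1 hzc.2
    · have h2 : z.re ≤ κ := by
        by_contra h3
        push Not at h3
        exact hzU ⟨lt_of_le_of_ne hzc.1 h1, h3⟩
      calc ‖F z‖ * ((1 + s') / ‖z‖) ^ d ≤ ‖F z‖ * ((1 + s') / κ) ^ d := by gcongr
        _ ≤ S := hin z hzc.1 h2
  have hwU : w ∈ closure U := subset_closure ⟨hlt, hre'⟩
  have h1 := Complex.norm_le_of_forall_mem_frontier_norm_le hUb hd hfr hwU
  rw [hnorm] at h1
  have hw0 : 0 < ‖w‖ := hκ.trans_le (hre.trans (Complex.re_le_norm w))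
  calc ‖F w‖ = (‖w‖ / (1 + s')) ^ d * (‖F w‖ * ((1 + s') / ‖w‖) ^ d) := by
        rw [mul_comm (‖F w‖), ← mul_assoc, ← mul_pow]
        have : ‖w‖ / (1 + s') * ((1 + s') / ‖w‖) = 1 := by field_simp
        rw [this, one_pow, one_mul]
    _ ≤ (‖w‖ / (1 + s')) ^ d * S := by gcongr

/-- `d + 1 ≤ 4 ^ d`. -/
theorem succ_le_four_pow (d : ℕ) : ((d : ℝ) + 1) ≤ 4 ^ d := by
  have h : d + 1 ≤ 4 ^ d := by
    have := Nat.lt_pow_self (n := d) (a := 4) (by norm_num)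
    omega
  exact_mod_cast h

/-- The main estimate: smallness of the test functions on a slightly smaller disc. -/
theorem tf_small {κ₀ κ l l₁ y₀ ρ₀ : ℝ} (hκ₀ : 1 / 2 ≤ κ₀) (hκ₀' : κ₀ < 1)
    (hκ : κ = (1 + κ₀) / 2) (hl : l = (7 + κ) / 8) (hl₁ : l₁ = (1 + l) / 2)
    (hy₀ : y₀ = (1 + l) / 2) (hρ₀ : ρ₀ = (1 - l) / 4) {M : ℕ}
    (hM : (l / l₁) ^ M * (4 / ρ₀) ≤ κ / 8) {s s' : ℝ} (hs : 0 ≤ s) (hss' : s < s')
    (hs' : s' ≤ (1 - κ₀) / 6) {d : ℕ} {P : ℂ[X]} (hP : P.natDegree ≤ d) {S : ℝ} (hS : 0 ≤ S)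
    (h : ∀ w : ℂ, ‖w - y₀‖ ≤ ρ₀ → ‖tf M d y₀ ρ₀ P w‖ ≤ S)
    (hout : ∀ w : ℂ, ‖w‖ = 1 + s' → κ ≤ w.re → ‖tf M d y₀ ρ₀ P w‖ ≤ S)
    {w : ℂ} (hw : ‖w‖ ≤ 1 + s) :
    ‖tf M d y₀ ρ₀ P w‖ ≤ (((1 + s) / (1 + s')) ^ d + (d + 1) * (1 / 8) ^ d) * S := by
  have hκ1 : κ < 1 := by linarith
  have hκp : 3 / 4 ≤ κ := by linarith
  have hl1 : l < 1 := by linarith
  have hlp : 0 < l := by linarith
  have hl₁p : 0 < l₁ := by linarith
  have hl₁1 : l₁ < 1 := by linarith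
  have hρ₀p : 0 < ρ₀ := by linarith
  have hs'p : 0 < s' := by linarith
  have hs'1 : s' ≤ 1 / 12 := by linarith
  have hq : ∀ w : ℂ, ‖w - y₀‖ ≤ ρ₀ → l₁ ≤ ‖(1 + w) / 2‖ := by
    intro w hw
    have h1 : ‖(1 + (y₀ : ℂ))‖ ≤ ‖1 + w‖ + ‖w - y₀‖ := by
      have : (1 + (y₀ : ℂ)) = (1 + w) - (w - y₀) := by ring
      rw [this]
      exact norm_sub_le _ _
    have h2 : ‖(1 + (y₀ : ℂ))‖ = 1 + y₀ := by
      have : (1 + (y₀ : ℂ)) = ((1 + y₀ : ℝ) : ℂ) := by push_cast; rfl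
      rw [this, Complex.norm_real, Real.norm_of_nonneg (by linarith)]
    have h4 : ‖(2 : ℂ)‖ = 2 := by simp
    rw [norm_div, h4]
    linarith
  -- the part with small real part
  have hsmall : ∀ w : ℂ, ‖w‖ ≤ 1 + s' → w.re ≤ κ →
      ‖tf M d y₀ ρ₀ P w‖ ≤ (d + 1) * S * (κ / 8) ^ d := by
    intro w hw hre
    have h1 := tf_bound hρ₀p hl₁p hq hP hS h w
    have h2 : ‖(1 + w) / 2‖ ≤ l := by
      rw [hl]
      apply norm_q_le hw hre hs'p.le
      nlinarith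
    have h3 : max 1 ‖(w - y₀) / ρ₀‖ ≤ 4 / ρ₀ := by
      apply max_le
      · rw [le_div_iff₀ hρ₀p]
        linarith
      · rw [norm_div, Complex.norm_real, Real.norm_of_nonneg hρ₀p.le]
        apply div_le_div_of_nonneg_right _ hρ₀p.le
        calc ‖w - y₀‖ ≤ ‖w‖ + ‖(y₀ : ℂ)‖ := norm_sub_le _ _
          _ ≤ (1 + s') + y₀ := by
              rw [Complex.norm_real, Real.norm_of_nonneg (by linarith)]
              gcongr
          _ ≤ 4 := by linarith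
    calc ‖tf M d y₀ ρ₀ P w‖
        ≤ (d + 1) * S * ((‖(1 + w) / 2‖ / l₁) ^ M * max 1 ‖(w - y₀) / ρ₀‖) ^ d := h1
      _ ≤ (d + 1) * S * ((l / l₁) ^ M * (4 / ρ₀)) ^ d := by gcongr
      _ ≤ (d + 1) * S * (κ / 8) ^ d := by gcongr
  have h8 : (κ / 8) ^ d ≤ (1 / 8) ^ d := by gcongr
  rcases le_total w.re κ with hre | hre
  · calc ‖tf M d y₀ ρ₀ P w‖ ≤ (d + 1) * S * (κ / 8) ^ d := hsmall w (by linarith) hre
      _ ≤ (d + 1) * S * (1 / 8) ^ d := by gcongr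
      _ ≤ _ := by
        have : 0 ≤ ((1 + s) / (1 + s')) ^ d * S := by positivity
        nlinarith
  · have h1 := max_step (differentiable_tf M d y₀ ρ₀ P) (S := S) (by linarith) hs'p d hout (by
      intro z hz hzre
      calc ‖tf M d y₀ ρ₀ P z‖ * ((1 + s') / κ) ^ d
          ≤ ((d + 1) * S * (κ / 8) ^ d) * ((1 + s') / κ) ^ d := by
            gcongr
            exact hsmall z hz hzre
        _ = (d + 1) * S * ((1 + s') / 8) ^ d := by
            rw [mul_assoc ((d + 1 : ℝ) * S), ← mul_pow]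
            congr 2
            field_simp
        _ ≤ (d + 1) * S * (1 / 4) ^ d := by
            apply mul_le_mul_of_nonneg_left _ (by positivity)
            exact pow_le_pow_left₀ (by positivity) (by linarith) d
        _ ≤ 4 ^ d * S * (1 / 4) ^ d := by
            gcongr
            exact succ_le_four_pow d
        _ = S := by
            rw [mul_comm (4 ^ d : ℝ) S, mul_assoc, ← mul_pow]
            norm_num) (w := w) (by linarith) hre
    calc ‖tf M d y₀ ρ₀ P w‖ ≤ (‖w‖ / (1 + s')) ^ d * S := h1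
      _ ≤ ((1 + s) / (1 + s')) ^ d * S := by gcongr
      _ ≤ _ := by
        have : 0 ≤ ((d : ℝ) + 1) * (1 / 8) ^ d * S := by positivity
        nlinarith

end Pool.Agent.KS6_84.D29
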