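import Pool.Agent.KS6_84.D29.Baire

/-!
# Gluing: extending an analytic germ on `𝔻 ∪ {1}` to `𝔻 ∪ B(1, r)`
-/

open Filter Set Topology Metric

namespace Pool.Agent.KS6_84.D29

/-- The element of `Hol V` given by a function differentiable on `V`. -/
noncomputable def holOf (V : Set ℂ) (F : ℂ → ℂ) (hF : DifferentiableOn ℂ F V) : Hol V :=
  ⟨⟨V.domRestrict F, hF.continuousOn.domRestrict⟩, by
    change DifferentiableOn ℂ (ext0 _) V
    refine hF.congr ?_
    intro z hz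
    rw [ext0_apply _ z hz]
    rfl⟩

theorem ext0_holOf (V : Set ℂ) (F : ℂ → ℂ) (hF : DifferentiableOn ℂ F V) (z : ℂ) (hz : z ∈ V) :
    ext0 (holOf V F hF : C(V, ℂ)) z = F z := by
  rw [ext0_apply _ z hz]
  rfl

theorem toGerm_holOf (E V : Set ℂ) (hV : IsOpen V) (hE : E ⊆ V) (F : ℂ → ℂ)
    (hF : DifferentiableOn ℂ F V) :
    toGerm E V hV hE (holOf V F hF) = mkGerm F ((hF.analyticOnNhd hV).mono hE) := by
  have h1 : toGerm E V hV hE (holOf V F hF) =
      mkGerm (ext0 (holOf V F hF : C(V, ℂ))) ((((holOf V F hF).2).analyticOnNhd hV).mono hE) := rfl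
  rw [h1]
  apply mkGerm_eq
  intro z hz
  filter_upwards [hV.mem_nhds (hE hz)] with x hx
  exact ext0_holOf V F hF x hx

/-- The power series at `1` with coefficients `a`. -/
noncomputable def ps (a : ℕ → ℂ) (z : ℂ) : ℂ := ∑' k, a k * (z - 1) ^ k

theorem term_bound {a : ℕ → ℂ} {r ρ A : ℝ} (hr : 0 < r) (hρ : 0 < ρ)
    (ha : ∀ k, ‖a k‖ * ρ ^ k ≤ A) (k : ℕ) {z : ℂ} (hz : z ∈ ball (1 : ℂ) r) :
    ‖a k * (z - 1) ^ k‖ ≤ A * (r / ρ) ^ k := by
  have hz' : ‖z - 1‖ < r := by simpa [dist_eq_norm] using hz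
  rw [norm_mul, norm_pow]
  calc ‖a k‖ * ‖z - 1‖ ^ k ≤ ‖a k‖ * r ^ k := by gcongr
    _ = (‖a k‖ * ρ ^ k) * (r / ρ) ^ k := by
        rw [div_pow]
        field_simp
    _ ≤ A * (r / ρ) ^ k := by
        gcongr
        exact ha k

theorem summable_geo {r ρ A : ℝ} (hr : 0 < r) (hρ : 0 < ρ) (hrρ : r ≤ ρ / 2) :
    Summable fun k : ℕ => A * (r / ρ) ^ k := by
  apply Summable.mul_left
  apply summable_geometric_of_lt_one (by positivity)
  rw [div_lt_one hρ]
  linarith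

theorem differentiableOn_ps {a : ℕ → ℂ} {r ρ A : ℝ} (hr : 0 < r) (hρ : 0 < ρ) (hrρ : r ≤ ρ / 2)
    (ha : ∀ k, ‖a k‖ * ρ ^ k ≤ A) : DifferentiableOn ℂ (ps a) (ball 1 r) := by
  unfold ps
  apply Complex.differentiableOn_tsum_of_summable_norm (summable_geo (A := A) hr hρ hrρ)
  · intro k
    fun_prop
  · exact isOpen_ball
  · intro k w hw
    exact term_bound hr hρ ha k hw

theorem ps_bound {a : ℕ → ℂ} {r ρ A : ℝ} (hr : 0 < r) (hρ : 0 < ρ) (hrρ : r ≤ ρ / 2)
    (ha : ∀ k, ‖a k‖ * ρ ^ k ≤ A) {d : ℕ} (h0 : ∀ k < d, a k = 0) {z : ℂ}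
    (hz : z ∈ ball (1 : ℂ) r) : ‖ps a z‖ ≤ 2 * A * (r / ρ) ^ d := by
  have hA : 0 ≤ A := le_trans (by positivity) (ha 0)
  have hx : r / ρ ≤ 1 / 2 := by
    rw [div_le_iff₀ hρ]
    linarith
  have hx0 : 0 ≤ r / ρ := by positivity
  have hsum : Summable fun k : ℕ => a k * (z - 1) ^ k :=
    Summable.of_norm_bounded (summable_geo (A := A) hr hρ hrρ) fun k => term_bound hr hρ ha k hz
  have h1 : ps a z = ∑' k, a (k + d) * (z - 1) ^ (k + d) := by
    unfold ps
    rw [← hsum.sum_add_tsum_nat_add d, Finset.sum_eq_zero, zero_add]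
    intro i hi
    rw [h0 i (Finset.mem_range.1 hi), zero_mul]
  rw [h1]
  have h2 : HasSum (fun k : ℕ => A * (r / ρ) ^ d * (r / ρ) ^ k)
      (A * (r / ρ) ^ d * (1 - r / ρ)⁻¹) := by
    apply HasSum.mul_left
    exact hasSum_geometric_of_lt_one hx0 (by linarith)
  have h3 := tsum_of_norm_bounded h2 (f := fun k => a (k + d) * (z - 1) ^ (k + d)) (by
    intro k
    calc ‖a (k + d) * (z - 1) ^ (k + d)‖ ≤ A * (r / ρ) ^ (k + d) :=
          term_bound hr hρ ha (k + d) hz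
      _ = A * (r / ρ) ^ d * (r / ρ) ^ k := by rw [pow_add]; ring)
  calc ‖∑' k, a (k + d) * (z - 1) ^ (k + d)‖ ≤ A * (r / ρ) ^ d * (1 - r / ρ)⁻¹ := h3
    _ ≤ A * (r / ρ) ^ d * 2 := by
        gcongr
        rw [inv_le_comm₀ (by linarith) (by norm_num)]
        linarith
    _ = 2 * A * (r / ρ) ^ d := by ring

/-- A function analytic near `𝔻 ∪ {1}` whose Taylor coefficients at `1` satisfy a Cauchy estimate
with radius `ρ` has, as a germ on `𝔻 ∪ {1}`, a representative on `𝔻 ∪ B(1, r)`. -/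
theorem exists_glue {h : ℂ → ℂ} (hh : AnalyticOnNhd ℂ h (ball 0 1 ∪ {1})) {a : ℕ → ℂ}
    (haeq : ∀ k, a k = (k.factorial : ℂ)⁻¹ * iteratedDeriv k h 1)
    {r ρ A : ℝ} (hr : 0 < r) (hρ : 0 < ρ) (hrρ : r ≤ ρ / 2)
    (ha : ∀ k, ‖a k‖ * ρ ^ k ≤ A) :
    ∃ g : ℂ → ℂ, DifferentiableOn ℂ g (ball 0 1 ∪ ball 1 r) ∧ (∀ z ∈ ball (0 : ℂ) 1, g z = h z) ∧
      (∀ z ∈ ball (1 : ℂ) r, g z = ps a z) ∧ ∀ z ∈ (ball 0 1 ∪ {1} : Set ℂ), h =ᶠ[𝓝 z] g := by
  classical
  have hps := differentiableOn_ps hr hρ hrρ ha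
  -- near `1`, `h = ps a`
  obtain ⟨δ, hδ, hδsub⟩ := Metric.isOpen_iff.1 (isOpen_analyticAt ℂ h) 1 (hh 1 (by simp))
  have hnear : ∀ z ∈ ball (1 : ℂ) δ, h z = ps a z := by
    intro z hz
    have hd : DifferentiableOn ℂ h (ball 1 δ) := fun w hw =>
      (hδsub hw).differentiableAt.differentiableWithinAt
    have h1 := Complex.taylorSeries_eq_on_ball' hz hd
    rw [← h1, ps]
    congr 1
    funext k
    rw [haeq]
  -- on `𝔻 ∩ B(1, r)`, `h = ps a`
  have hint : ∀ z ∈ ball (0 : ℂ) 1 ∩ ball 1 r, h z = ps a z := by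
    have hconv : Convex ℝ (ball (0 : ℂ) 1 ∩ ball 1 r) := (convex_ball 0 1).inter (convex_ball 1 r)
    let ε : ℝ := min (min δ r) 1 / 2
    have hε : 0 < ε := by positivity
    have hε1 : ε < δ := by
      have : min (min δ r) 1 ≤ δ := (min_le_left _ _).trans (min_le_left _ _)
      change min (min δ r) 1 / 2 < δ
      linarith
    have hε2 : ε < r := by
      have : min (min δ r) 1 ≤ r := (min_le_left _ _).trans (min_le_right _ _)
      change min (min δ r) 1 / 2 < r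
      linarith
    have hε3 : ε < 1 := by
      have : min (min δ r) 1 ≤ 1 := min_le_right _ _
      change min (min δ r) 1 / 2 < 1
      linarith
    let z₀ : ℂ := ((1 - ε : ℝ) : ℂ)
    have hz1 : z₀ ∈ ball (0 : ℂ) 1 := by
      rw [mem_ball_zero_iff, Complex.norm_real, Real.norm_of_nonneg (by linarith)]
      linarith
    have hz2 : dist z₀ 1 = ε := by
      rw [dist_eq_norm]
      have : z₀ - 1 = ((-ε : ℝ) : ℂ) := by
        simp [z₀]
      rw [this, Complex.norm_real, norm_neg, Real.norm_of_nonneg hε.le]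
    have e1 : AnalyticOnNhd ℂ h (ball (0 : ℂ) 1 ∩ ball 1 r) :=
      hh.mono (inter_subset_left.trans subset_union_left)
    have e2 : AnalyticOnNhd ℂ (ps a) (ball (0 : ℂ) 1 ∩ ball 1 r) :=
      (hps.analyticOnNhd isOpen_ball).mono inter_subset_right
    have e3 : h =ᶠ[𝓝 z₀] ps a := by
      have : ball (1 : ℂ) δ ∈ 𝓝 z₀ := isOpen_ball.mem_nhds (by
        rw [mem_ball, hz2]
        exact hε1)
      filter_upwards [this] with z hz
      exact hnear z hz
    exact e1.eqOn_of_preconnected_of_eventuallyEq e2 hconv.isPreconnected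
      ⟨hz1, by rw [mem_ball, hz2]; exact hε2⟩ e3
  let g : ℂ → ℂ := fun z => if z ∈ ball (1 : ℂ) r then ps a z else h z
  have hg1 : ∀ z ∈ ball (0 : ℂ) 1, g z = h z := by
    intro z hz
    by_cases hz' : z ∈ ball (1 : ℂ) r
    · simp only [g, if_pos hz']
      exact (hint z ⟨hz, hz'⟩).symm
    · simp only [g, if_neg hz']
  have hg2 : ∀ z ∈ ball (1 : ℂ) r, g z = ps a z := by
    intro z hz
    simp only [g, if_pos hz]
  refine ⟨g, ?_, hg1, hg2, ?_⟩
  · apply DifferentiableOn.union_of_isOpen _ _ isOpen_ball isOpen_ball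
    · apply DifferentiableOn.congr _ hg1
      intro z hz
      exact (hh z (Or.inl hz)).differentiableAt.differentiableWithinAt
    · exact hps.congr hg2
  · intro z hz
    rcases hz with hz | hz
    · filter_upwards [isOpen_ball.mem_nhds hz] with x hx
      exact (hg1 x hx).symm
    · rw [mem_singleton_iff] at hz
      subst hz
      filter_upwards [isOpen_ball.mem_nhds (mem_ball_self hδ : (1 : ℂ) ∈ ball 1 δ),
        isOpen_ball.mem_nhds (mem_ball_self hr : (1 : ℂ) ∈ ball 1 r)] with x hx hx'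
      rw [hg2 x hx', hnear x hx]

end Pool.Agent.KS6_84.D29
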