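import Pool.Agent.KS6_84.D29.Glue
import Pool.Agent.KS6_84.D29.Est

/-!
# The main argument
-/

open Filter Set Topology Metric Polynomial

namespace Pool.Agent.KS6_84.D29

/-- The germ on `E` of the rotated test function attached to `P`, linear in `P`. -/
noncomputable def tg (E : Set ℂ) (u : ℂ) (M d : ℕ) (y₀ ρ₀ : ℝ) : ℂ[X] →ₗ[ℂ] OSpace E where
  toFun P := mkGerm (fun z => tf M d y₀ ρ₀ P (u * z))
    (fun z _ => ((differentiable_tf M d y₀ ρ₀ P).comp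
      (differentiable_id.const_mul u)).analyticAt z)
  map_add' P R := by
    apply Subtype.ext
    apply Germ.coe_eq.2
    apply Eventually.of_forall
    intro z
    simp only [tf, eval_add]
    ring
  map_smul' c P := by
    apply Subtype.ext
    apply Germ.coe_eq.2
    apply Eventually.of_forall
    intro z
    simp only [tf, eval_smul, RingHom.id_apply]
    change _ = c * _
    simp only [smul_eq_mul]
    ring

/-- There is a nonzero polynomial of degree at most `d` killed by `d` linear functionals. -/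
theorem exists_kernel (d : ℕ) (l : Fin d → (ℂ[X] →ₗ[ℂ] ℂ)) :
    ∃ P : ℂ[X], P ≠ 0 ∧ P.natDegree ≤ d ∧ ∀ j, l j P = 0 := by
  let W := Polynomial.degreeLT ℂ (d + 1)
  let φ : W →ₗ[ℂ] (Fin d → ℂ) := LinearMap.pi fun j => (l j).comp W.subtype
  have hfin : Module.finrank ℂ W = d + 1 := by
    rw [(Polynomial.degreeLTEquiv ℂ (d + 1)).finrank_eq]
    simp
  have : FiniteDimensional ℂ W :=
    Module.Finite.equiv (Polynomial.degreeLTEquiv ℂ (d + 1)).symm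
  have hlt : Module.finrank ℂ (Fin d → ℂ) < Module.finrank ℂ W := by
    rw [hfin]
    simp
  have hker := LinearMap.ker_ne_bot_of_finrank_lt (f := φ) hlt
  obtain ⟨x, hx, hx0⟩ := (Submodule.ne_bot_iff _).1 hker
  refine ⟨x.1, ?_, ?_, ?_⟩
  · intro h
    exact hx0 (Subtype.ext h)
  · have h1 := Polynomial.mem_degreeLT.1 x.2
    rcases eq_or_ne x.1 0 with h0 | h0
    · rw [h0]; simp
    · rw [Polynomial.degree_eq_natDegree h0] at h1
      have h2 : x.1.natDegree < d + 1 := by exact_mod_cast h1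
      omega
  · intro j
    have := congrFun (LinearMap.mem_ker.1 hx) j
    exact this

/-- Bounded by its half, hence zero. -/
theorem zero_of_half {K : Set ℂ} (hK : IsCompact K) {g : ℂ → ℂ} (hg : ContinuousOn g K)
    (h : ∀ G ≥ (0 : ℝ), (∀ z ∈ K, ‖g z‖ ≤ G) → ∀ z ∈ K, ‖g z‖ ≤ G / 2) :
    ∀ z ∈ K, ‖g z‖ ≤ 0 := by
  intro z hz
  obtain ⟨z₀, hz₀, hmax⟩ := hK.exists_isMaxOn ⟨z, hz⟩ hg.norm
  have h1 := h ‖g z₀‖ (norm_nonneg _) (fun w hw => hmax hw) z₀ hz₀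
  have h2 : ‖g z₀‖ ≤ 0 := by linarith
  exact (hmax hz).trans h2

theorem main (u : ℂ) (hu : ‖u‖ = 1) {κ₀ : ℝ} (hκ₀ : 1 / 2 ≤ κ₀) (hκ₀' : κ₀ < 1) {E : Set ℂ}
    (hE1 : ball 0 1 ⊆ E) (hE2 : ∀ ζ : ℂ, ‖ζ‖ = 1 → κ₀ ≤ (u * ζ).re → ζ ∈ E)
    (hE3 : E ⊆ closedBall 0 1)
    (T : OSpace E →L[ℂ] OSpace (ball 0 1 ∪ {1})) (R : OSpace (ball 0 1 ∪ {1}) →L[ℂ] OSpace E)
    (hRT : ∀ φ, R (T φ) = φ) : False := by
  obtain ⟨κ, hκ⟩ : ∃ κ, κ = (1 + κ₀) / 2 := ⟨_, rfl⟩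
  obtain ⟨l, hl⟩ : ∃ l, l = (7 + κ) / 8 := ⟨_, rfl⟩
  obtain ⟨l₁, hl₁⟩ : ∃ l₁, l₁ = (1 + l) / 2 := ⟨_, rfl⟩
  obtain ⟨y₀, hy₀⟩ : ∃ y₀, y₀ = (1 + l) / 2 := ⟨_, rfl⟩
  obtain ⟨ρ₀, hρ₀⟩ : ∃ ρ₀, ρ₀ = (1 - l) / 4 := ⟨_, rfl⟩
  have hκ1 : κ < 1 := by linarith
  have hκp : 3 / 4 ≤ κ := by linarith
  have hl1 : l < 1 := by linarith
  have hlp : 0 < l := by linarith
  have hl₁p : 0 < l₁ := by linarith
  have hl₁1 : l₁ < 1 := by linarith
  have hρ₀p : 0 < ρ₀ := by linarith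
  have hll₁ : l / l₁ < 1 := by
    rw [div_lt_one hl₁p]
    linarith
  obtain ⟨M, hM⟩ : ∃ M : ℕ, (l / l₁) ^ M * (4 / ρ₀) ≤ κ / 8 := by
    obtain ⟨M, hM⟩ := exists_pow_lt_of_lt_one (show 0 < κ / 8 / (4 / ρ₀) by positivity) hll₁
    refine ⟨M, ?_⟩
    rw [← le_div_iff₀ (by positivity)]
    exact hM.le
  have hq : ∀ w : ℂ, ‖w - y₀‖ ≤ ρ₀ → l₁ ≤ ‖(1 + w) / 2‖ := by
    intro w hw
    have h1 : ‖(1 + (y₀ : ℂ))‖ ≤ ‖1 + w‖ + ‖w - y₀‖ := by
      have : (1 + (y₀ : ℂ)) = (1 + w) - (w - y₀) := by ring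
      rw [this]
      exact norm_sub_le _ _
    have h2 : ‖(1 + (y₀ : ℂ))‖ = 1 + y₀ := by
      have : (1 + (y₀ : ℂ)) = ((1 + y₀ : ℝ) : ℂ) := by push_cast; rfl
      rw [this, Complex.norm_real, Real.norm_of_nonneg (by linarith)]
    have h4 : ‖(2 : ℂ)‖ = 2 := by simp
    rw [norm_div, h4]
    linarith
  -- notation
  let E₁ : Set ℂ := ball 0 1 ∪ {1}
  have h1E₁ : (1 : ℂ) ∈ E₁ := Or.inr rfl
  -- Step 1
  have step1 := uniform_bound (V := univ) isOpen_univ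
    (T.toLinearMap ∘ₗ toGerm E univ isOpen_univ (subset_univ _))
    (T.continuous.comp ((admissible_topology E).1.2.2.2 univ isOpen_univ (subset_univ _)))
    (Q := {(1 : ℂ)}) isCompact_singleton (show {(1 : ℂ)} ⊆ E₁ from by simpa using h1E₁)
  obtain ⟨ρ₁, hρ₁, C₁, hC₁, K₁, hK₁, -, hF1⟩ := step1
  obtain ⟨R₁', hR₁'⟩ := hK₁.isBounded.subset_closedBall (0 : ℂ)
  obtain ⟨R₁, hR₁⟩ : ∃ R₁, R₁ = max R₁' 1 := ⟨_, rfl⟩
  have hR₁1 : 1 ≤ R₁ := by rw [hR₁]; exact le_max_right _ _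
  have hK₁R : ∀ z ∈ K₁, ‖z‖ ≤ R₁ := by
    intro z hz
    have := hR₁' hz
    rw [mem_closedBall_zero_iff] at this
    rw [hR₁]
    exact this.trans (le_max_left _ _)
  -- Step 2
  obtain ⟨B, hB⟩ : ∃ B, B = ((1 + R₁) / 2 / l₁) ^ M * max 1 ((R₁ + 1) / ρ₀) := ⟨_, rfl⟩
  have hB0 : 0 ≤ B := by rw [hB]; positivity
  obtain ⟨r, hr⟩ : ∃ r, r = min (ρ₁ / 2) (ρ₁ / (2 * (B + 1))) := ⟨_, rfl⟩
  have hr0 : 0 < r := by rw [hr]; positivity
  have hr1 : r ≤ ρ₁ / 2 := by rw [hr]; exact min_le_left _ _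
  have hr2 : B * (r / ρ₁) ≤ 1 / 2 := by
    have h1 : r ≤ ρ₁ / (2 * (B + 1)) := by rw [hr]; exact min_le_right _ _
    have h2 : r / ρ₁ ≤ 1 / (2 * (B + 1)) := by
      rw [div_le_iff₀ hρ₁]
      calc r ≤ ρ₁ / (2 * (B + 1)) := h1
        _ = 1 / (2 * (B + 1)) * ρ₁ := by ring
    calc B * (r / ρ₁) ≤ B * (1 / (2 * (B + 1))) := by gcongr
      _ ≤ 1 / 2 := by
        rw [mul_one_div, div_le_div_iff₀ (by positivity) (by norm_num)]
        linarith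
  -- Step 3
  let V₂ : Set ℂ := ball 0 1 ∪ ball 1 r
  have hV₂ : IsOpen V₂ := isOpen_ball.union isOpen_ball
  have hEV₂ : E₁ ⊆ V₂ := by
    apply union_subset_union_right
    simpa using hr0
  let U₀ : Set ℂ := {z | ‖u * z - y₀‖ ≤ ρ₀}
  let β₀ : Set ℂ := {z | ‖z‖ = 1 ∧ κ₀ ≤ (u * z).re}
  have hUnorm : ∀ z, ‖u * z‖ = ‖z‖ := by
    intro z
    rw [norm_mul, hu, one_mul]
  have hU₀sub : U₀ ⊆ ball 0 1 := by
    intro z hz
    rw [mem_ball_zero_iff]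
    have h1 : ‖u * z‖ ≤ ‖u * z - y₀‖ + ‖(y₀ : ℂ)‖ := by
      have : u * z = (u * z - y₀) + y₀ := by ring
      calc ‖u * z‖ = ‖(u * z - y₀) + y₀‖ := by rw [← this]
        _ ≤ _ := norm_add_le _ _
    rw [Complex.norm_real, Real.norm_of_nonneg (show 0 ≤ y₀ by linarith), hUnorm] at h1
    have h2 : ‖u * z - y₀‖ ≤ ρ₀ := hz
    linarith
  have hQ₂ : IsCompact (U₀ ∪ β₀) := by
    apply Metric.isCompact_of_isClosed_isBounded
    · apply IsClosed.union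
      · apply isClosed_le _ continuous_const
        fun_prop
      · have e1 : IsClosed {z : ℂ | ‖z‖ = 1} := isClosed_eq continuous_norm continuous_const
        have e2 : IsClosed {z : ℂ | κ₀ ≤ (u * z).re} :=
          isClosed_le continuous_const (Complex.continuous_re.comp (by fun_prop))
        exact e1.inter e2
    · apply (Metric.isBounded_closedBall (x := (0 : ℂ)) (r := 1)).subset
      rintro z (hz | hz)
      · exact ball_subset_closedBall (hU₀sub hz)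
      · rw [mem_closedBall_zero_iff]
        exact hz.1.le
  have hQ₂E : U₀ ∪ β₀ ⊆ E := by
    rintro z (hz | hz)
    · exact hE1 (hU₀sub hz)
    · exact hE2 z hz.1 hz.2
  have step2 := uniform_bound (V := V₂) hV₂ (E := E)
    (R.toLinearMap ∘ₗ toGerm E₁ V₂ hV₂ hEV₂)
    (R.continuous.comp ((admissible_topology E₁).1.2.2.2 V₂ hV₂ hEV₂)) hQ₂ hQ₂E
  obtain ⟨ρ₂, hρ₂, C₂, hC₂, K₂, hK₂, hK₂V, hF2⟩ := step2
  -- Step 4
  obtain ⟨s', hs'⟩ : ∃ s', s' = min (ρ₂ / 2) ((1 - κ₀) / 6) := ⟨_, rfl⟩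
  have hs'p : 0 < s' := by
    rw [hs']
    exact lt_min (by positivity) (by linarith)
  have hs'1 : s' ≤ ρ₂ / 2 := by rw [hs']; exact min_le_left _ _
  have hs'2 : s' ≤ (1 - κ₀) / 6 := by rw [hs']; exact min_le_right _ _
  let Q₁ : Set ℂ := K₂ \ ball 1 r
  have hQ₁ : IsCompact Q₁ := hK₂.diff isOpen_ball
  have hQ₁sub : Q₁ ⊆ ball 0 1 := by
    rintro z ⟨hz, hz'⟩
    exact (hK₂V hz).resolve_right hz'
  have hQ₁E : Q₁ ⊆ E₁ := hQ₁sub.trans subset_union_left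
  let V₃ : Set ℂ := ball 0 (1 + s' / 2)
  have hV₃ : IsOpen V₃ := isOpen_ball
  have hEV₃ : E ⊆ V₃ := by
    intro z hz
    have := hE3 hz
    rw [mem_closedBall_zero_iff] at this
    change z ∈ ball 0 (1 + s' / 2)
    rw [mem_ball_zero_iff]
    linarith
  have step3 := uniform_bound (V := V₃) hV₃
    (T.toLinearMap ∘ₗ toGerm E V₃ hV₃ hEV₃)
    (T.continuous.comp ((admissible_topology E).1.2.2.2 V₃ hV₃ hEV₃)) hQ₁ hQ₁E
  obtain ⟨ρ₃, hρ₃, C₃, hC₃, K₃, hK₃, hK₃V, hF3⟩ := step3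
  -- Step 5: choice of d
  have hlim : ∃ d : ℕ, 2 * C₂ * C₃ *
      (((1 + s' / 2) / (1 + s')) ^ d + (d + 1) * (1 / 8) ^ d) ≤ 1 / 2 ∧
      4 * C₁ * C₂ * ((d + 1) * (1 / 2) ^ d) ≤ 1 / 2 := by
    have t1 : Tendsto (fun d : ℕ => ((1 + s' / 2) / (1 + s')) ^ d) atTop (𝓝 0) := by
      apply tendsto_pow_atTop_nhds_zero_of_lt_one (by positivity)
      rw [div_lt_one (by positivity)]
      linarith
    have t2 : ∀ x : ℝ, 0 ≤ x → x < 1 →
        Tendsto (fun d : ℕ => ((d : ℝ) + 1) * x ^ d) atTop (𝓝 0) := by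
      intro x hx0 hx1
      have a1 := tendsto_self_mul_const_pow_of_lt_one hx0 hx1
      have a2 := tendsto_pow_atTop_nhds_zero_of_lt_one hx0 hx1
      have a3 := a1.add a2
      rw [add_zero] at a3
      refine a3.congr ?_
      intro d
      ring
    have t3 : Tendsto (fun d : ℕ => 2 * C₂ * C₃ *
        (((1 + s' / 2) / (1 + s')) ^ d + ((d : ℝ) + 1) * (1 / 8) ^ d)) atTop (𝓝 0) := by
      have := (t1.add (t2 (1 / 8) (by norm_num) (by norm_num))).const_mul (2 * C₂ * C₃)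
      rwa [add_zero, mul_zero] at this
    have t4 : Tendsto (fun d : ℕ => 4 * C₁ * C₂ * (((d : ℝ) + 1) * (1 / 2) ^ d))
        atTop (𝓝 0) := by
      have := (t2 (1 / 2) (by norm_num) (by norm_num)).const_mul (4 * C₁ * C₂)
      rwa [mul_zero] at this
    have e1 := t3.eventually (gt_mem_nhds (show (0 : ℝ) < 1 / 2 by norm_num))
    have e2 := t4.eventually (gt_mem_nhds (show (0 : ℝ) < 1 / 2 by norm_num))
    obtain ⟨d, h1, h2⟩ := (e1.and e2).exists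
    exact ⟨d, h1.le, h2.le⟩
  obtain ⟨d, hd1, hd2⟩ := hlim
  -- Step 6: choice of P
  obtain ⟨P, hP0, hPd, hPk⟩ := exists_kernel d fun j =>
    (coef (1 : ℂ) h1E₁ (j : ℕ)) ∘ₗ T.toLinearMap ∘ₗ tg E u M d y₀ ρ₀
  let f : ℂ → ℂ := fun z => tf M d y₀ ρ₀ P (u * z)
  have hf : Differentiable ℂ f := (differentiable_tf M d y₀ ρ₀ P).comp
      (differentiable_id.const_mul u)
  -- Step 7
  obtain ⟨h, hh, hTh⟩ := exists_mkGerm (T (tg E u M d y₀ ρ₀ P))
  let a : ℕ → ℂ := fun k => (k.factorial : ℂ)⁻¹ * iteratedDeriv k h 1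
  have ha_eq : ∀ k, a k = coef (1 : ℂ) h1E₁ k (T (tg E u M d y₀ ρ₀ P)) := by
    intro k
    rw [hTh, coef_mkGerm]
  have ha0 : ∀ k < d, a k = 0 := by
    intro k hk
    rw [ha_eq]
    exact hPk ⟨k, hk⟩
  have ha_bound : ∀ N ≥ (0 : ℝ), (∀ z : ℂ, ‖z‖ ≤ R₁ → ‖f z‖ ≤ N) →
      ∀ k, ‖a k‖ * ρ₁ ^ k ≤ C₁ * N := by
    intro N hN hfN k
    have h1 := hF1 (holOf univ f hf.differentiableOn) N hN (by
      intro z hz
      rw [ext0_holOf univ f _ z (mem_univ z)]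
      exact hfN z (hK₁R z hz)) 1 (mem_singleton 1) k
    rw [LinearMap.comp_apply, toGerm_holOf] at h1
    rw [ha_eq]
    exact h1
  obtain ⟨N₀, hN₀⟩ := (isCompact_closedBall (0 : ℂ) R₁).exists_bound_of_continuousOn
    hf.continuous.continuousOn
  have hN₀' : 0 ≤ N₀ := (norm_nonneg _).trans (hN₀ 0 (mem_closedBall_self (by linarith)))
  have hA₀ := ha_bound N₀ hN₀' (fun z hz => hN₀ z (by rwa [mem_closedBall_zero_iff]))
  -- Step 8
  obtain ⟨g, hg, hg1, hg2, hg3⟩ := exists_glue hh (a := a) (fun k => rfl) hr0 hρ₁ hr1 hA₀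
  have hTg : T (tg E u M d y₀ ρ₀ P) = mkGerm g ((hg.analyticOnNhd hV₂).mono hEV₂) := by
    rw [hTh]
    exact mkGerm_eq _ _ hg3
  -- Step 9
  have hS : ∀ G ≥ (0 : ℝ), (∀ z ∈ K₂, ‖g z‖ ≤ G) →
      ∀ p (hp : p ∈ U₀ ∪ β₀) (k : ℕ),
        ‖(k.factorial : ℂ)⁻¹ * iteratedDeriv k f p‖ * ρ₂ ^ k ≤ C₂ * G := by
    intro G hG hgG p hp k
    have h1 := hF2 (holOf V₂ g hg) G hG (by
      intro z hz
      rw [ext0_holOf V₂ g _ z (hK₂V hz)]
      exact hgG z hz) p hp k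
    rw [LinearMap.comp_apply, toGerm_holOf] at h1
    have h2 : R.toLinearMap (mkGerm g ((hg.analyticOnNhd hV₂).mono hEV₂)) =
        tg E u M d y₀ ρ₀ P := by
      rw [← hTg]
      exact hRT _
    rw [h2] at h1
    have h3 : coef p (hQ₂E hp) k (tg E u M d y₀ ρ₀ P) =
        (k.factorial : ℂ)⁻¹ * iteratedDeriv k f p :=
      coef_mkGerm p (hQ₂E hp) k f (fun z _ => hf.analyticAt z)
    rw [h3] at h1
    exact h1
  have hSU : ∀ G ≥ (0 : ℝ), (∀ z ∈ K₂, ‖g z‖ ≤ G) →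
      ∀ w : ℂ, ‖w - y₀‖ ≤ ρ₀ → ‖tf M d y₀ ρ₀ P w‖ ≤ 2 * C₂ * G := by
    intro G hG hgG w hw
    have hu0 : u ≠ 0 := by
      rintro rfl
      simp at hu
    have h0 : u * (u⁻¹ * w) = w := by
      rw [← mul_assoc, mul_inv_cancel₀ hu0, one_mul]
    have hz : u⁻¹ * w ∈ U₀ := by
      change ‖u * (u⁻¹ * w) - y₀‖ ≤ ρ₀
      rw [h0]
      exact hw
    have h1 := hS G hG hgG (u⁻¹ * w) (Or.inl hz) 0
    simp only [Nat.factorial_zero, Nat.cast_one, inv_one, one_mul, iteratedDeriv_zero,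
      pow_zero, mul_one] at h1
    have h2 : f (u⁻¹ * w) = tf M d y₀ ρ₀ P w := by
      change tf M d y₀ ρ₀ P (u * (u⁻¹ * w)) = _
      rw [h0]
    rw [h2] at h1
    have : 0 ≤ C₂ * G := by positivity
    linarith
  have hSarc : ∀ G ≥ (0 : ℝ), (∀ z ∈ K₂, ‖g z‖ ≤ G) →
      ∀ w : ℂ, ‖w‖ = 1 + s' → κ ≤ w.re → ‖tf M d y₀ ρ₀ P w‖ ≤ 2 * C₂ * G := by
    intro G hG hgG w hw hre
    have hu0 : u ≠ 0 := by
      rintro rfl
      simp at hu
    obtain ⟨z, hz⟩ : ∃ z, z = u⁻¹ * w := ⟨_, rfl⟩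
    have h0 : u * z = w := by
      rw [hz, ← mul_assoc, mul_inv_cancel₀ hu0, one_mul]
    have hs1 : (0 : ℝ) < 1 + s' := by linarith
    have hs1c : (((1 + s' : ℝ)) : ℂ) ≠ 0 := by exact_mod_cast hs1.ne'
    obtain ⟨ζ, hζ⟩ : ∃ ζ, ζ = ((1 + s' : ℝ) : ℂ)⁻¹ * z := ⟨_, rfl⟩
    have hz1 : ‖z‖ = 1 + s' := by rw [← hUnorm, h0, hw]
    have hζβ : ζ ∈ β₀ := by
      refine ⟨?_, ?_⟩
      · rw [hζ, norm_mul, norm_inv, Complex.norm_real, Real.norm_of_nonneg hs1.le, hz1,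
          inv_mul_cancel₀ hs1.ne']
      · have : u * ζ = (((1 + s')⁻¹ : ℝ) : ℂ) * w := by
          rw [hζ, ← h0]
          push_cast
          ring
        rw [this, Complex.re_ofReal_mul, inv_mul_eq_div, le_div_iff₀ hs1]
        nlinarith
    have hdist : ‖z - ζ‖ = s' := by
      have : z - ζ = ((s' : ℝ) : ℂ) * ζ := by
        have e : z = ((1 + s' : ℝ) : ℂ) * ζ := by
          rw [hζ, ← mul_assoc, mul_inv_cancel₀ hs1c, one_mul]
        rw [e]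
        push_cast
        ring
      rw [this, norm_mul, Complex.norm_real, Real.norm_of_nonneg hs'p.le, hζβ.1, mul_one]
    have hb := hS G hG hgG ζ (Or.inr hζβ)
    -- Taylor expansion of the entire function f at ζ
    have hzb : z ∈ ball ζ (s' + 1) := by
      rw [mem_ball, dist_eq_norm, hdist]
      linarith
    have hT := Complex.hasSum_taylorSeries_on_ball (c := ζ) (r := s' + 1)
      (f := f) hf.differentiableOn hzb
    have h2 : HasSum (fun k : ℕ => C₂ * G * (1 / 2) ^ k) (C₂ * G * (1 - 1 / 2)⁻¹) := by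
      apply HasSum.mul_left
      exact hasSum_geometric_of_lt_one (by norm_num) (by norm_num)
    have h3 : ‖f z‖ ≤ C₂ * G * (1 - 1 / 2)⁻¹ := by
      rw [← hT.tsum_eq]
      apply tsum_of_norm_bounded h2
      intro k
      rw [smul_eq_mul, smul_eq_mul]
      have e1 : ((k.factorial : ℂ))⁻¹ * ((z - ζ) ^ k * iteratedDeriv k f ζ) =
          ((k.factorial : ℂ)⁻¹ * iteratedDeriv k f ζ) * (z - ζ) ^ k := by ring
      rw [e1, norm_mul, norm_pow, hdist]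
      calc ‖(k.factorial : ℂ)⁻¹ * iteratedDeriv k f ζ‖ * s' ^ k
          ≤ ‖(k.factorial : ℂ)⁻¹ * iteratedDeriv k f ζ‖ * (ρ₂ / 2) ^ k := by gcongr
        _ = (‖(k.factorial : ℂ)⁻¹ * iteratedDeriv k f ζ‖ * ρ₂ ^ k) * (1 / 2) ^ k := by
            rw [div_pow, one_div, inv_pow]
            ring
        _ ≤ (C₂ * G) * (1 / 2) ^ k :=
            mul_le_mul_of_nonneg_right (hb k) (by positivity)
    have h4 : f z = tf M d y₀ ρ₀ P w := by
      change tf M d y₀ ρ₀ P (u * z) = _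
      rw [h0]
    rw [h4] at h3
    calc ‖tf M d y₀ ρ₀ P w‖ ≤ C₂ * G * (1 - 1 / 2)⁻¹ := h3
      _ = 2 * C₂ * G := by ring
  -- Step 10, 11
  have hhalf : ∀ G ≥ (0 : ℝ), (∀ z ∈ K₂, ‖g z‖ ≤ G) → ∀ z ∈ K₂, ‖g z‖ ≤ G / 2 := by
    intro G hG hgG z hz
    have hS0 : 0 ≤ 2 * C₂ * G := by positivity
    have b1 := hSU G hG hgG
    have b2 := hSarc G hG hgG
    by_cases hzr : z ∈ ball (1 : ℂ) r
    · -- Step 11
      have c1 : ∀ z : ℂ, ‖z‖ ≤ R₁ → ‖f z‖ ≤ (d + 1) * (2 * C₂ * G) * B ^ d := by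
        intro z hz
        have := tf_bound hρ₀p hl₁p hq hPd hS0 b1 (u * z)
        refine this.trans ?_
        have e1 : ‖(1 + u * z) / 2‖ ≤ (1 + R₁) / 2 := by
          rw [norm_div]
          have : ‖(2 : ℂ)‖ = 2 := by simp
          rw [this]
          gcongr
          calc ‖1 + u * z‖ ≤ ‖(1 : ℂ)‖ + ‖u * z‖ := norm_add_le _ _
            _ ≤ 1 + R₁ := by
              rw [hUnorm, norm_one]
              gcongr
        have e2 : ‖(u * z - y₀) / ρ₀‖ ≤ (R₁ + 1) / ρ₀ := by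
          rw [norm_div, Complex.norm_real, Real.norm_of_nonneg hρ₀p.le]
          gcongr
          calc ‖u * z - y₀‖ ≤ ‖u * z‖ + ‖(y₀ : ℂ)‖ := norm_sub_le _ _
            _ ≤ R₁ + 1 := by
              rw [hUnorm, Complex.norm_real, Real.norm_of_nonneg (show 0 ≤ y₀ by linarith)]
              linarith
        have e3 : (‖(1 + u * z) / 2‖ / l₁) ^ M * max 1 ‖(u * z - y₀) / ρ₀‖ ≤ B := by
          rw [hB]
          gcongr
        gcongr
      have c2 := ha_bound _ (by positivity) c1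
      have c3 := ps_bound hr0 hρ₁ hr1 c2 ha0 hzr
      rw [hg2 z hzr]
      refine c3.trans ?_
      have c4 : (B * (r / ρ₁)) ^ d ≤ (1 / 2) ^ d :=
        pow_le_pow_left₀ (by positivity) hr2 d
      calc 2 * (C₁ * ((d + 1) * (2 * C₂ * G) * B ^ d)) * (r / ρ₁) ^ d
          = (4 * C₁ * C₂ * ((d + 1) * (B * (r / ρ₁)) ^ d)) * G := by
            rw [mul_pow]
            ring
        _ ≤ (4 * C₁ * C₂ * ((d + 1) * (1 / 2) ^ d)) * G := by gcongr
        _ ≤ 1 / 2 * G := by gcongr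
        _ = G / 2 := by ring
    · -- Step 10
      have hzQ : z ∈ Q₁ := ⟨hz, hzr⟩
      have c1 : ∀ z ∈ V₃, ‖f z‖ ≤
          (((1 + s' / 2) / (1 + s')) ^ d + (d + 1) * (1 / 8) ^ d) * (2 * C₂ * G) := by
        intro z hz
        have hz' : ‖u * z‖ ≤ 1 + s' / 2 := by
          rw [hUnorm]
          exact (mem_ball_zero_iff.1 hz).le
        exact tf_small hκ₀ hκ₀' hκ hl hl₁ hy₀ hρ₀ hM (by positivity) (by linarith) hs'2 hPd
          hS0 b1 b2 hz'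
      have c2 := hF3 (holOf V₃ f hf.differentiableOn)
        ((((1 + s' / 2) / (1 + s')) ^ d + (d + 1) * (1 / 8) ^ d) * (2 * C₂ * G))
        (by positivity) (by
        intro z hz
        rw [ext0_holOf V₃ f _ z (hK₃V hz)]
        exact c1 z (hK₃V hz)) z hzQ 0
      rw [LinearMap.comp_apply, toGerm_holOf, pow_zero, mul_one] at c2
      have c3 : coef z (hQ₁E hzQ) 0 (T.toLinearMap (mkGerm f
          ((hf.differentiableOn.analyticOnNhd hV₃).mono hEV₃))) = g z := by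
        have : T.toLinearMap (mkGerm f
          ((hf.differentiableOn.analyticOnNhd hV₃).mono hEV₃)) = T (tg E u M d y₀ ρ₀ P) := rfl
        rw [this, hTg, coef_mkGerm]
        simp
      rw [c3] at c2
      calc ‖g z‖ ≤ _ := c2
        _ = (2 * C₂ * C₃ *
            (((1 + s' / 2) / (1 + s')) ^ d + (d + 1) * (1 / 8) ^ d)) * G := by ring
        _ ≤ 1 / 2 * G := by gcongr
        _ = G / 2 := by ring
  -- Step 12
  have hzero := zero_of_half hK₂ (hg.continuousOn.mono hK₂V) hhalf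
  have hU0 := hSU 0 le_rfl hzero
  rw [mul_zero] at hU0
  apply hP0
  ext j
  have := tf_coeff hρ₀p hl₁p hq hU0 j
  rw [zero_div] at this
  simpa using this

end Pool.Agent.KS6_84.D29
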